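import Mathlib
import Pool.Agent.H47.WT.Defs

set_option autoImplicit false

/-! Crew WT, part P4: cocycles of finitely generated groups in permutation modules. -/

namespace Pool.Agent.H47.WT

variable {H : Type} [Group H]

private lemma p4_map_apply {X : Type} [MulAction H X] (g : H) (p : X →₀ ℤ) (y : X) :
    p.mapDomain (fun x => g • x) y = p (g⁻¹ • y) := by
  have h := Finsupp.mapDomain_apply (MulAction.injective g) p (g⁻¹ • y)
  simp only [smul_inv_smul] at h
  exact h

private lemma p4_coc {X : Type} [MulAction H X] {f : H → X →₀ ℤ} (hf : Coc f) (g h : H) (y : X) :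
    f (g * h) y = f g y + f h (g⁻¹ • y) := by
  rw [hf g h, Finsupp.add_apply, p4_map_apply]

private lemma p4_one {X : Type} [MulAction H X] {f : H → X →₀ ℤ} (hf : Coc f) (y : X) :
    f 1 y = 0 := by
  have h := p4_coc hf 1 1 y
  rw [mul_one, inv_one, one_smul] at h
  linarith

private lemma p4_inv {X : Type} [MulAction H X] {f : H → X →₀ ℤ} (hf : Coc f) (g : H) (y : X) :
    f g⁻¹ y = - f g (g • y) := by
  have h := p4_coc hf g⁻¹ g y
  rw [inv_mul_cancel, p4_one hf, inv_inv] at h
  linarith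

private lemma p4_orbit {X : Type} [MulAction H X] (f : H → X →₀ ℤ) (hf : Coc f) (x₀ : X)
    (hV : Van H (H ⧸ MulAction.stabilizer H x₀)) :
    ∃ u : X →₀ ℤ, (∀ y, y ∉ MulAction.orbit H x₀ → u y = 0) ∧
      ∀ (g : H) (y : X), y ∈ MulAction.orbit H x₀ → f g y = u (g⁻¹ • y) - u y := by
  have hinj : Function.Injective (MulAction.ofQuotientStabilizer H x₀) :=
    MulAction.injective_ofQuotientStabilizer H x₀
  obtain ⟨x', hx'⟩ := hV (fun g => (f g).comapDomain (MulAction.ofQuotientStabilizer H x₀)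
    hinj.injOn) (by
      intro g h
      ext z
      rw [Finsupp.add_apply, p4_map_apply, Finsupp.comapDomain_apply, Finsupp.comapDomain_apply,
        Finsupp.comapDomain_apply, p4_coc hf, MulAction.ofQuotientStabilizer_smul])
  refine ⟨x'.mapDomain (MulAction.ofQuotientStabilizer H x₀), ?_, ?_⟩
  · intro y hy
    apply Finsupp.mapDomain_of_notMem_range
    rintro ⟨z, rfl⟩
    exact hy (MulAction.ofQuotientStabilizer_mem_orbit H x₀ z)
  · rintro g y ⟨a, rfl⟩
    have e1 : a • x₀ = MulAction.ofQuotientStabilizer H x₀ (QuotientGroup.mk a) := rfl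
    have h1 := DFunLike.congr_fun (hx' g) (QuotientGroup.mk a)
    rw [Finsupp.comapDomain_apply, Finsupp.sub_apply, p4_map_apply] at h1
    show f g (a • x₀) = _
    simp only [e1]
    rw [h1, ← MulAction.ofQuotientStabilizer_smul, Finsupp.mapDomain_apply hinj,
      Finsupp.mapDomain_apply hinj]

/-- P4 -/
theorem pri_of_fg [Group.FG H] {X : Type} [MulAction H X] (f : H → X →₀ ℤ) (hf : Coc f)
    (hX : ∀ (g : H) (x : X), f g x ≠ 0 → Van H (H ⧸ MulAction.stabilizer H x)) : Pri f := by
  classical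
  obtain ⟨S, hS⟩ := (Group.FG.out : (⊤ : Subgroup H).FG)
  set cls : X → MulAction.orbitRel.Quotient H X := fun x => Quotient.mk'' x with hcls
  have hc : ∀ x y : X, cls y = cls x ↔ y ∈ MulAction.orbit H x := by
    intro x y
    rw [hcls]
    simp only
    rw [Quotient.eq'', MulAction.orbitRel_apply]
  have hcs : ∀ (g : H) (y : X), cls (g • y) = cls y := fun g y =>
    (hc y (g • y)).2 (MulAction.mem_orbit y g)
  set Y : Finset X := S.biUnion fun s => (f s).support with hY
  set W : Finset (MulAction.orbitRel.Quotient H X) := Y.image cls with hW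
  have hsup : ∀ (g : H) (y : X), cls y ∉ W → f g y = 0 := by
    intro g
    have hg : g ∈ Subgroup.closure (S : Set H) := by
      rw [hS]
      exact Subgroup.mem_top g
    induction hg using Subgroup.closure_induction with
    | mem s hs =>
      intro y hy
      by_contra h
      apply hy
      rw [hW]
      refine Finset.mem_image_of_mem _ ?_
      rw [hY, Finset.mem_biUnion]
      exact ⟨s, hs, Finsupp.mem_support_iff.2 h⟩
    | one =>
      intro y _
      exact p4_one hf y
    | mul a b _ _ ha hb =>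
      intro y hy
      rw [p4_coc hf, ha y hy, hb _ (by rwa [hcs]), add_zero]
    | inv a _ ha =>
      intro y hy
      rw [p4_inv hf, ha _ (by rwa [hcs]), neg_zero]
  have hex : ∀ ω ∈ W, ∃ u : X →₀ ℤ, (∀ y, cls y ≠ ω → u y = 0) ∧
      ∀ (g : H) (y : X), cls y = ω → f g y = u (g⁻¹ • y) - u y := by
    intro ω hω
    rw [hW, Finset.mem_image] at hω
    obtain ⟨x₀, hx₀, rfl⟩ := hω
    rw [hY, Finset.mem_biUnion] at hx₀
    obtain ⟨s, _, hs⟩ := hx₀
    obtain ⟨u, hu1, hu2⟩ := p4_orbit f hf x₀ (hX s x₀ (Finsupp.mem_support_iff.1 hs))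
    exact ⟨u, fun y hy => hu1 y (fun h => hy ((hc x₀ y).2 h)),
      fun g y hy => hu2 g y ((hc x₀ y).1 hy)⟩
  choose! u hu1 hu2 using hex
  refine ⟨∑ ω ∈ W, u ω, fun g => ?_⟩
  have hval : ∀ y : X, cls y ∈ W → (∑ ω ∈ W, u ω) y = u (cls y) y := by
    intro y hy
    rw [Finsupp.finsetSum_apply, Finset.sum_eq_single (cls y)]
    · intro ω hω hne
      exact hu1 ω hω y (fun h => hne h.symm)
    · intro h
      exact absurd hy h
  have hval0 : ∀ y : X, cls y ∉ W → (∑ ω ∈ W, u ω) y = 0 := by
    intro y hy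
    rw [Finsupp.finsetSum_apply]
    refine Finset.sum_eq_zero fun ω hω => hu1 ω hω y (fun h => hy (by rwa [h]))
  ext y
  rw [Finsupp.sub_apply, p4_map_apply]
  by_cases hy : cls y ∈ W
  · rw [hval y hy, hval _ (by rwa [hcs]), hcs, hu2 _ hy g y rfl]
  · rw [hval0 y hy, hval0 _ (by rwa [hcs]), hsup g y hy, sub_zero]

end Pool.Agent.H47.WT
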